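import Mathlib

set_option autoImplicit false

/-!
The poset `P W = W × (W ∪ {⊤})`, for a well order `W` in which every countable subset is bounded,
ordered by `(a, b) ≤ (c, d)` iff `a = c` and `b ≤ d`, or `d = ⊤` and `b ≤ c`.
It is a dcpo, a suitable (in fact the Scott) topology on it is well-filtered, and no sober
topology on it has the given order as its specialization order.
-/

namespace Pool.Agent.Lib.MP_c1092b_gt

/-- Underlying type: pairs. -/
structure P (W : Type) where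
  /-- column -/
  col : W
  /-- height -/
  ht : WithTop W

variable {W : Type} [LinearOrder W]

/-- The order relation. -/
def le (x y : P W) : Prop :=
  (x.col = y.col ∧ x.ht ≤ y.ht) ∨ (y.ht = ⊤ ∧ x.ht ≤ (y.col : WithTop W))

theorem le_refl' (x : P W) : le x x := Or.inl ⟨rfl, le_rfl⟩

theorem le_trans' {x y z : P W} (h1 : le x y) (h2 : le y z) : le x z := by
  rcases h1 with ⟨h1a, h1b⟩ | ⟨h1a, h1b⟩
  · rcases h2 with ⟨h2a, h2b⟩ | ⟨h2a, h2b⟩
    · exact Or.inl ⟨h1a.trans h2a, h1b.trans h2b⟩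
    · exact Or.inr ⟨h2a, h1b.trans h2b⟩
  · rcases h2 with ⟨h2a, h2b⟩ | ⟨h2a, h2b⟩
    · right
      refine ⟨?_, ?_⟩
      · rw [h1a] at h2b; exact top_le_iff.mp h2b
      · rw [← h2a]; exact h1b
    · rw [h1a] at h2b
      exact absurd (top_le_iff.mp h2b) (WithTop.coe_ne_top)

theorem le_antisymm' {x y : P W} (h1 : le x y) (h2 : le y x) : x = y := by
  rcases h1 with ⟨h1a, h1b⟩ | ⟨h1a, h1b⟩
  · rcases h2 with ⟨h2a, h2b⟩ | ⟨h2a, h2b⟩
    · cases x; cases y; simp only at *; subst h1a; rw [le_antisymm h1b h2b]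
    · rw [h2a] at h1b
      have := top_le_iff.mp h1b
      rw [this] at h2b
      exact absurd (top_le_iff.mp h2b) (WithTop.coe_ne_top)
  · rcases h2 with ⟨h2a, h2b⟩ | ⟨h2a, h2b⟩
    · rw [h1a] at h2b
      have := top_le_iff.mp h2b
      rw [this] at h1b
      exact absurd (top_le_iff.mp h1b) (WithTop.coe_ne_top)
    · rw [h1a] at h2b
      exact absurd (top_le_iff.mp h2b) (WithTop.coe_ne_top)

instance : PartialOrder (P W) where
  le := le
  le_refl := le_refl'
  le_trans _ _ _ := le_trans'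
  le_antisymm _ _ := le_antisymm'

theorem le_def (x y : P W) : x ≤ y ↔
    (x.col = y.col ∧ x.ht ≤ y.ht) ∨ (y.ht = ⊤ ∧ x.ht ≤ (y.col : WithTop W)) := Iff.rfl

theorem exists_lub [WellFoundedLT W] (S : Set (WithTop W)) : ∃ s, IsLUB S s := by
  have hne : (upperBounds S).Nonempty := ⟨⊤, fun x _ => le_top⟩
  refine ⟨WellFounded.min (wellFounded_lt (α := WithTop W)) (upperBounds S) hne, ?_, ?_⟩
  · exact WellFounded.min_mem _ _ _
  · intro x hx
    exact not_lt.mp (WellFounded.not_lt_min _ _ hx)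

theorem isDcpo [WellFoundedLT W] (d : Set (P W)) (hne : d.Nonempty)
    (hd : DirectedOn (· ≤ ·) d) : ∃ x : P W, IsLUB d x := by
  by_cases htop : ∃ c : W, (⟨c, ⊤⟩ : P W) ∈ d
  · obtain ⟨c, hc⟩ := htop
    refine ⟨⟨c, ⊤⟩, ?_, fun y hy => hy hc⟩
    intro x hx
    obtain ⟨z, _, hxz, hcz⟩ := hd x hx _ hc
    have hz : z = ⟨c, ⊤⟩ := by
      rcases hcz with ⟨h1, h2⟩ | ⟨_, h2⟩
      · cases z
        simp only at h1 h2
        rw [h1, top_le_iff.mp h2]
      · exact absurd (top_le_iff.mp h2) (WithTop.coe_ne_top)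
    rw [← hz]; exact hxz
  · push Not at htop
    obtain ⟨p, hp⟩ := hne
    have hcol : ∀ x ∈ d, x.col = p.col := by
      intro x hx
      obtain ⟨z, hz, hxz, hpz⟩ := hd x hx p hp
      have hzt : z.ht ≠ ⊤ := by
        intro h
        apply htop z.col
        have : z = ⟨z.col, ⊤⟩ := by cases z; simp only at h; rw [h]
        rw [← this]; exact hz
      rcases hxz with ⟨h1, _⟩ | ⟨h1, _⟩
      · rcases hpz with ⟨h2, _⟩ | ⟨h2, _⟩
        · rw [h1, h2]
        · exact absurd h2 hzt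
      · exact absurd h1 hzt
    obtain ⟨s, hs⟩ := exists_lub (P.ht '' d)
    refine ⟨⟨p.col, s⟩, ?_, ?_⟩
    · intro x hx
      exact Or.inl ⟨hcol x hx, hs.1 ⟨x, hx, rfl⟩⟩
    · intro y hy
      by_cases hyc : p.col = y.col
      · left
        refine ⟨hyc, hs.2 ?_⟩
        rintro _ ⟨x, hx, rfl⟩
        rcases hy hx with ⟨_, h⟩ | ⟨h, _⟩
        · exact h
        · rw [h]; exact le_top
      · right
        have key : ∀ x ∈ d, y.ht = ⊤ ∧ x.ht ≤ (y.col : WithTop W) := by
          intro x hx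
          rcases hy hx with ⟨h, _⟩ | h
          · exact absurd ((hcol x hx).symm.trans h) hyc
          · exact h
        refine ⟨(key p hp).1, hs.2 ?_⟩
        rintro _ ⟨x, hx, rfl⟩
        exact (key x hx).2

/-- Openness: upper, and open in each column. -/
def opn (U : Set (P W)) : Prop :=
  IsUpperSet U ∧ ∀ (a : W) (y : WithTop W), (⟨a, y⟩ : P W) ∈ U →
    (∀ y' : WithTop W, (⟨a, y'⟩ : P W) ∈ U) ∨
      ∃ z < y, ∀ y' > z, (⟨a, y'⟩ : P W) ∈ U

/-- The topology (the Scott topology of `P W`). -/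
@[instance_reducible] def top : TopologicalSpace (P W) where
  IsOpen := opn
  isOpen_univ := ⟨isUpperSet_univ, fun _ _ _ => Or.inl fun _ => trivial⟩
  isOpen_inter := by
    rintro U V ⟨hU, hU'⟩ ⟨hV, hV'⟩
    refine ⟨hU.inter hV, ?_⟩
    rintro a y ⟨h1, h2⟩
    rcases hU' a y h1 with h1 | ⟨z1, hz1, h1⟩
    · rcases hV' a y h2 with h2 | ⟨z2, hz2, h2⟩
      · exact Or.inl fun y' => ⟨h1 y', h2 y'⟩
      · exact Or.inr ⟨z2, hz2, fun y' hy' => ⟨h1 y', h2 y' hy'⟩⟩
    · rcases hV' a y h2 with h2 | ⟨z2, hz2, h2⟩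
      · exact Or.inr ⟨z1, hz1, fun y' hy' => ⟨h1 y' hy', h2 y'⟩⟩
      · exact Or.inr ⟨max z1 z2, max_lt hz1 hz2, fun y' hy' =>
          ⟨h1 y' (lt_of_le_of_lt (le_max_left _ _) hy'),
            h2 y' (lt_of_le_of_lt (le_max_right _ _) hy')⟩⟩
  isOpen_sUnion := by
    intro s hs
    refine ⟨isUpperSet_sUnion fun U hU => (hs U hU).1, ?_⟩
    rintro a y ⟨U, hU, hy⟩
    rcases (hs U hU).2 a y hy with h | ⟨z, hz, h⟩
    · exact Or.inl fun y' => ⟨U, hU, h y'⟩
    · exact Or.inr ⟨z, hz, fun y' hy' => ⟨U, hU, h y' hy'⟩⟩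

theorem isOpen_iff (U : Set (P W)) : @IsOpen (P W) top U ↔ opn U := Iff.rfl

theorem isClosed_Iic (x : P W) : @IsClosed (P W) top (Set.Iic x) := by
  rw [← @isOpen_compl_iff _ _ top]
  refine ⟨(isLowerSet_Iic x).compl, ?_⟩
  intro a y hy
  by_cases h1 : a = x.col
  · -- the column section is `ht ≤ x.ht`
    right
    refine ⟨x.ht, ?_, ?_⟩
    · by_contra hcon
      exact hy (Or.inl ⟨h1, not_lt.mp hcon⟩)
    · intro y' hy' hmem
      rcases hmem with ⟨_, h⟩ | ⟨h, _⟩
      · exact absurd h (not_le.mpr hy')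
      · rw [h] at hy'
        exact absurd hy' not_top_lt
  · by_cases h2 : x.ht = ⊤
    · right
      refine ⟨(x.col : WithTop W), ?_, ?_⟩
      · by_contra hcon
        exact hy (Or.inr ⟨h2, not_lt.mp hcon⟩)
      · intro y' hy' hmem
        rcases hmem with ⟨h, _⟩ | ⟨_, h⟩
        · exact absurd h h1
        · exact absurd h (not_le.mpr hy')
    · left
      intro y' hmem
      rcases hmem with ⟨h, _⟩ | ⟨h, _⟩
      · exact absurd h h1
      · exact absurd h h2

theorem closure_singleton (x : P W) : @closure _ top {x} = Set.Iic x := by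
  apply Set.Subset.antisymm
  · exact @closure_minimal _ top _ _ (Set.singleton_subset_iff.mpr (le_refl x)) (isClosed_Iic x)
  · intro y hy
    rw [@mem_closure_iff _ top]
    intro U hU hyU
    exact ⟨x, hU.1 hy hyU, rfl⟩

theorem t0 : @T0Space (P W) top := by
  let _ : TopologicalSpace (P W) := top
  refine ⟨fun x y hxy => ?_⟩
  have h1 : closure {x} = closure {y} := inseparable_iff_closure_eq.mp hxy
  have h2 : Set.Iic x = Set.Iic y := by
    rw [← closure_singleton x, ← closure_singleton y]; exact h1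
  exact Set.Iic_injective h2

/-! ### Compact sets -/

theorem mem_of_le {U : Set (P W)} (hU : opn U) {x y : P W} (h : x ≤ y) (hx : x ∈ U) : y ∈ U :=
  hU.1 h hx

/-- A compact set has non-top points in only finitely many columns. -/
theorem finite_columns (hW : ∀ S : Set W, S.Countable → ∃ d : W, ∀ s ∈ S, s < d)
    (K : Set (P W)) (hK : @IsCompact (P W) top K) :
    {a : W | ∃ y : W, (⟨a, (y : WithTop W)⟩ : P W) ∈ K}.Finite := by
  by_contra hinf
  obtain ⟨T, hTsub, hTinf, hTc⟩ : ∃ T ⊆ {a : W | ∃ y : W, (⟨a, (y : WithTop W)⟩ : P W) ∈ K},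
      T.Infinite ∧ T.Countable := by
    obtain ⟨f⟩ : Nonempty (ℕ ↪ {a : W | ∃ y : W, (⟨a, (y : WithTop W)⟩ : P W) ∈ K}) :=
      ⟨Set.Infinite.natEmbedding _ hinf⟩
    refine ⟨Set.range fun n => (f n : W), ?_, ?_, Set.countable_range _⟩
    · rintro _ ⟨n, rfl⟩; exact (f n).2
    · exact Set.infinite_range_of_injective (Subtype.val_injective.comp f.injective)
  have hTsub' : ∀ t : W, t ∈ T → ∃ y : W, (⟨t, (y : WithTop W)⟩ : P W) ∈ K :=
    fun t ht => hTsub ht
  have hg' : ∀ t : W, ∃ y : W, t ∈ T → (⟨t, (y : WithTop W)⟩ : P W) ∈ K := by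
    intro t
    by_cases ht : t ∈ T
    · obtain ⟨y, hy⟩ := hTsub' t ht
      exact ⟨y, fun _ => hy⟩
    · exact ⟨t, fun h => absurd h ht⟩
  choose g hg using hg'
  obtain ⟨δ, hδ⟩ := hW (g '' T) (hTc.image g)
  -- the cover
  let U : Option W → Set (P W) := fun o =>
    match o with
    | none => {x | (δ : WithTop W) < x.ht ∨ x.col ∉ T}
    | some t => {x | (δ : WithTop W) < x.ht ∨ x.col = t}
  have hUo : ∀ o, @IsOpen (P W) top (U o) := by
    intro o
    rw [isOpen_iff]
    have hup : ∀ {x y : P W}, x ≤ y → x.col ≠ y.col → (δ : WithTop W) < y.ht := by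
      intro x y hxy hc
      rcases hxy with ⟨h, _⟩ | ⟨h, _⟩
      · exact absurd h hc
      · rw [h]; exact WithTop.coe_lt_top _
    have hup2 : ∀ {x y : P W}, x ≤ y → (δ : WithTop W) < x.ht → (δ : WithTop W) < y.ht := by
      intro x y hxy hx
      rcases hxy with ⟨_, h⟩ | ⟨h, _⟩
      · exact lt_of_lt_of_le hx h
      · rw [h]; exact WithTop.coe_lt_top _
    refine ⟨?_, ?_⟩
    · intro x y hxy hx
      by_cases hc : x.col = y.col
      · cases o with
        | none =>
          rcases hx with hx | hx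
          · exact Or.inl (hup2 hxy hx)
          · exact Or.inr (by rw [← hc]; exact hx)
        | some t =>
          rcases hx with hx | hx
          · exact Or.inl (hup2 hxy hx)
          · exact Or.inr (by rw [← hc]; exact hx)
      · cases o with
        | none => exact Or.inl (hup hxy hc)
        | some t => exact Or.inl (hup hxy hc)
    · intro a y hy
      cases o with
      | none =>
        rcases hy with hy | hy
        · exact Or.inr ⟨δ, hy, fun y' hy' => Or.inl hy'⟩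
        · exact Or.inl fun y' => Or.inr hy
      | some t =>
        rcases hy with hy | hy
        · exact Or.inr ⟨δ, hy, fun y' hy' => Or.inl hy'⟩
        · exact Or.inl fun y' => Or.inr hy
  have hcov : K ⊆ ⋃ o, U o := by
    intro x _
    by_cases hx : x.col ∈ T
    · exact Set.mem_iUnion.mpr ⟨some x.col, Or.inr rfl⟩
    · exact Set.mem_iUnion.mpr ⟨none, Or.inr hx⟩
  obtain ⟨F, hF⟩ := @IsCompact.elim_finite_subcover (P W) top K (Option W) hK U hUo hcov
  have hsub : T ⊆ (fun o : Option W => o.getD δ) '' (F : Set (Option W)) := by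
    intro t ht
    have h1 := hF (hg t ht)
    simp only [Set.mem_iUnion, exists_prop] at h1
    obtain ⟨o, ho, hto⟩ := h1
    have hlt : ¬ ((δ : WithTop W) < (g t : WithTop W)) := by
      rw [WithTop.coe_lt_coe]
      exact not_lt.mpr (hδ _ ⟨t, ht, rfl⟩).le
    cases o with
    | none =>
      rcases hto with h | h
      · exact absurd h hlt
      · exact absurd ht h
    | some s =>
      rcases hto with h | h
      · exact absurd h hlt
      · exact ⟨some s, ho, h.symm⟩
  exact hTinf ((F.finite_toSet.image _).subset hsub)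

/-- A compact set all whose points are top points is finite. -/
theorem finite_of_tops (hW : ∀ S : Set W, S.Countable → ∃ d : W, ∀ s ∈ S, s < d)
    (L : Set (P W)) (hL : @IsCompact (P W) top L) (htop : ∀ x ∈ L, x.ht = ⊤) :
    L.Finite := by
  by_contra hinf
  have hinf' : (P.col '' L).Infinite := by
    intro hfin
    apply hinf
    refine Set.Finite.of_finite_image hfin ?_
    intro x hx y hy hxy
    have h1 := htop x hx
    have h2 := htop y hy
    cases x; cases y; simp only at *; subst h1; subst h2; subst hxy; rfl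
  obtain ⟨T, hTsub, hTinf, hTc⟩ : ∃ T ⊆ P.col '' L, T.Infinite ∧ T.Countable := by
    obtain ⟨f⟩ : Nonempty (ℕ ↪ (P.col '' L : Set W)) := ⟨Set.Infinite.natEmbedding _ hinf'⟩
    refine ⟨Set.range fun n => (f n : W), ?_, ?_, Set.countable_range _⟩
    · rintro _ ⟨n, rfl⟩; exact (f n).2
    · exact Set.infinite_range_of_injective (Subtype.val_injective.comp f.injective)
  obtain ⟨δ, hδ⟩ := hW T hTc
  let U : Option W → Set (P W) := fun o =>
    match o with
    | none => {x | (δ : WithTop W) < x.ht ∧ x.col ∉ T}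
    | some t => {x | (δ : WithTop W) < x.ht ∧ (x.col = t ∨ δ < x.col)}
  have hUo : ∀ o, @IsOpen (P W) top (U o) := by
    intro o
    rw [isOpen_iff]
    refine ⟨?_, ?_⟩
    · intro x y hxy hx
      cases o with
      | none =>
        rcases hxy with ⟨h, h'⟩ | ⟨h, h'⟩
        · exact ⟨lt_of_lt_of_le hx.1 h', by rw [← h]; exact hx.2⟩
        · refine ⟨by rw [h]; exact WithTop.coe_lt_top _, ?_⟩
          intro hy
          have h1 : (δ : WithTop W) < (y.col : WithTop W) := lt_of_lt_of_le hx.1 h'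
          rw [WithTop.coe_lt_coe] at h1
          exact absurd h1 (not_lt.mpr (hδ _ hy).le)
      | some t =>
        rcases hxy with ⟨h, h'⟩ | ⟨h, h'⟩
        · exact ⟨lt_of_lt_of_le hx.1 h', by rw [← h]; exact hx.2⟩
        · refine ⟨by rw [h]; exact WithTop.coe_lt_top _, ?_⟩
          have h1 : (δ : WithTop W) < (y.col : WithTop W) := lt_of_lt_of_le hx.1 h'
          rw [WithTop.coe_lt_coe] at h1
          exact Or.inr h1
    · intro a y hy
      cases o with
      | none => exact Or.inr ⟨δ, hy.1, fun y' hy' => ⟨hy', hy.2⟩⟩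
      | some t => exact Or.inr ⟨δ, hy.1, fun y' hy' => ⟨hy', hy.2⟩⟩
  have hcov : L ⊆ ⋃ o, U o := by
    intro x hx
    have h1 : (δ : WithTop W) < x.ht := by rw [htop x hx]; exact WithTop.coe_lt_top _
    by_cases hx : x.col ∈ T
    · exact Set.mem_iUnion.mpr ⟨some x.col, ⟨h1, Or.inl rfl⟩⟩
    · exact Set.mem_iUnion.mpr ⟨none, ⟨h1, hx⟩⟩
  obtain ⟨F, hF⟩ := @IsCompact.elim_finite_subcover (P W) top L (Option W) hL U hUo hcov
  have hsub : T ⊆ (fun o : Option W => o.getD δ) '' (F : Set (Option W)) := by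
    intro t ht
    obtain ⟨x, hx, hxt⟩ := hTsub ht
    have h1 := hF hx
    simp only [Set.mem_iUnion, exists_prop] at h1
    obtain ⟨o, ho, hto⟩ := h1
    cases o with
    | none =>
      exact absurd ht (by rw [← hxt]; exact hto.2)
    | some s =>
      rcases hto.2 with h | h
      · exact ⟨some s, ho, by rw [← hxt]; exact h.symm⟩
      · rw [hxt] at h
        exact absurd h (not_lt.mpr (hδ _ ht).le)
  exact hTinf ((F.finite_toSet.image _).subset hsub)

/-- A filtered family of nonempty finite sets has a common point. -/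
theorem common_point {ι α : Type} (I : Set ι) (B : ι → Set α)
    (hfil : ∀ i ∈ I, ∀ j ∈ I, ∃ k ∈ I, B k ⊆ B i ∧ B k ⊆ B j)
    (hfin : ∃ i ∈ I, (B i).Finite) (hne : ∀ i ∈ I, (B i).Nonempty) :
    ∃ a, ∀ i ∈ I, a ∈ B i := by
  classical
  obtain ⟨i₀, hi₀, hf₀⟩ := hfin
  have hex : ∃ n : ℕ, ∃ i ∈ I, (B i).Finite ∧ (B i).ncard = n := ⟨_, i₀, hi₀, hf₀, rfl⟩
  obtain ⟨i, hi, hfi, hn⟩ := Nat.find_spec hex
  have hmin : ∀ j ∈ I, B i ⊆ B j := by
    intro j hj
    obtain ⟨k, hk, hki, hkj⟩ := hfil i hi j hj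
    have hfk : (B k).Finite := hfi.subset hki
    have h1 : Nat.find hex ≤ (B k).ncard := Nat.find_min' hex ⟨k, hk, hfk, rfl⟩
    have h2 : B k = B i := by
      apply Set.eq_of_subset_of_ncard_le hki _ hfi
      rw [hn]; exact h1
    rw [← h2]; exact hkj
  obtain ⟨a, ha⟩ := hne i hi
  exact ⟨a, fun j hj => hmin j hj ha⟩

/-- The topology is well-filtered. -/
theorem wellFiltered [WellFoundedLT W]
    (hW : ∀ S : Set W, S.Countable → ∃ d : W, ∀ s ∈ S, s < d)
    (𝒦 : Set (Set (P W))) (hne : 𝒦.Nonempty) (hdir : DirectedOn (· ⊇ ·) 𝒦)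
    (hK : ∀ K ∈ 𝒦, @IsCompact (P W) top K ∧ IsUpperSet K)
    (U : Set (P W)) (hU : @IsOpen (P W) top U) (hsub : ⋂₀ 𝒦 ⊆ U) : ∃ K ∈ 𝒦, K ⊆ U := by
  by_contra hcon
  push Not at hcon
  have hmeet : ∀ K ∈ 𝒦, (K \ U).Nonempty := by
    intro K hK'
    obtain ⟨x, hx, hxU⟩ := Set.not_subset.mp (hcon K hK')
    exact ⟨x, hx, hxU⟩
  have hopn : opn U := hU
  by_cases hcase : ∀ K ∈ 𝒦, ∃ a : W, ∃ y : W, (⟨a, (y : WithTop W)⟩ : P W) ∈ K \ U
  · -- every member has a non-top point outside `U`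
    obtain ⟨a, ha⟩ := common_point 𝒦
      (fun K => {a : W | ∃ y : W, (⟨a, (y : WithTop W)⟩ : P W) ∈ K \ U})
      (by
        intro K1 h1 K2 h2
        obtain ⟨K3, h3, h31, h32⟩ := hdir K1 h1 K2 h2
        exact ⟨K3, h3, fun a ⟨y, hy⟩ => ⟨y, h31 hy.1, hy.2⟩, fun a ⟨y, hy⟩ => ⟨y, h32 hy.1, hy.2⟩⟩)
      (by
        obtain ⟨K, hK'⟩ := hne
        exact ⟨K, hK', (finite_columns hW K (hK K hK').1).subset
          (fun a ⟨y, hy⟩ => ⟨y, hy.1⟩)⟩)
      hcase
    -- the heights
    let S : Set (WithTop W) := {y | (⟨a, y⟩ : P W) ∉ U ∧ ∃ K ∈ 𝒦, ∀ y', (⟨a, y'⟩ : P W) ∈ K → y ≤ y'}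
    obtain ⟨s, hs⟩ := exists_lub S
    -- minimum heights
    have hmin : ∀ K ∈ 𝒦, ∃ y : WithTop W, (⟨a, y⟩ : P W) ∈ K ∧ y ∈ S := by
      intro K hK'
      obtain ⟨y, hy⟩ := ha K hK'
      let H : Set (WithTop W) := {y' | (⟨a, y'⟩ : P W) ∈ K}
      have hH : H.Nonempty := ⟨(y : WithTop W), hy.1⟩
      have hm := WellFounded.min_mem (wellFounded_lt (α := WithTop W)) H hH
      have hle : ∀ y' ∈ H, WellFounded.min (wellFounded_lt (α := WithTop W)) H hH ≤ y' :=
        fun y' hy' => not_lt.mp (WellFounded.not_lt_min _ _ hy')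
      refine ⟨_, hm, ?_, K, hK', hle⟩
      intro hmU
      apply hy.2
      have hle' : (⟨a, WellFounded.min (wellFounded_lt (α := WithTop W)) H hH⟩ : P W) ≤
          ⟨a, (y : WithTop W)⟩ := Or.inl ⟨rfl, hle _ hy.1⟩
      exact hopn.1 hle' hmU
    have hsK : (⟨a, s⟩ : P W) ∈ ⋂₀ 𝒦 := by
      intro K hK'
      obtain ⟨y, hyK, hyS⟩ := hmin K hK'
      exact (hK K hK').2 (show (⟨a, y⟩ : P W) ≤ ⟨a, s⟩ from Or.inl ⟨rfl, hs.1 hyS⟩) hyK
    have hsU := hsub hsK
    obtain ⟨K₀, hK₀⟩ := hne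
    obtain ⟨y₀, _, hy₀S⟩ := hmin K₀ hK₀
    rcases hopn.2 a s hsU with h | ⟨z, hz, h⟩
    · exact hy₀S.1 (h y₀)
    · have : ∃ y ∈ S, z < y := by
        by_contra hno
        push Not at hno
        exact absurd (hs.2 hno) (not_le.mpr hz)
      obtain ⟨y, hyS, hzy⟩ := this
      exact hyS.1 (h y hzy)
  · push Not at hcase
    obtain ⟨K₁, hK₁, hK₁top⟩ := hcase
    have htops : ∀ x ∈ K₁ \ U, x.ht = ⊤ := by
      intro x hx
      by_contra hxt
      obtain ⟨y, hy⟩ := WithTop.ne_top_iff_exists.mp hxt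
      apply hK₁top x.col y
      rw [hy]; exact hx
    have hcomp : @IsCompact (P W) top (K₁ \ U) := @IsCompact.diff (P W) top _ _ (hK K₁ hK₁).1 hU
    have hfin := finite_of_tops hW _ hcomp htops
    obtain ⟨x, hx⟩ := common_point 𝒦 (fun K => K \ U)
      (by
        intro K1 h1 K2 h2
        obtain ⟨K3, h3, h31, h32⟩ := hdir K1 h1 K2 h2
        exact ⟨K3, h3, Set.sdiff_subset_sdiff_left h31, Set.sdiff_subset_sdiff_left h32⟩)
      ⟨K₁, hK₁, hfin⟩ hmeet
    have hxmem : x ∈ ⋂₀ 𝒦 := fun K hK' => (hx K hK').1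
    exact (hx K₁ hK₁).2 (hsub hxmem)

/-- No topology with the given specialization order is quasi-sober. -/
theorem not_sober [Nontrivial W] (hW : ∀ S : Set W, S.Countable → ∃ d : W, ∀ s ∈ S, s < d)
    (t : TopologicalSpace (P W)) (hcl : ∀ x : P W, @closure (P W) t {x} = Set.Iic x)
    (hs : @QuasiSober (P W) t) : False := by
  let _ : TopologicalSpace (P W) := t
  -- open sets are upper sets
  have hup : ∀ U : Set (P W), IsOpen U → ∀ x y : P W, x ≤ y → x ∈ U → y ∈ U := by
    intro U hU x y hxy hx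
    have : x ∈ closure {y} := by rw [hcl]; exact hxy
    rw [mem_closure_iff] at this
    obtain ⟨z, hz1, hz2⟩ := this U hU hx
    rw [← hz2]; exact hz1
  -- open sets are inaccessible along columns
  have hacc : ∀ U : Set (P W), IsOpen U → ∀ a : W, (⟨a, ⊤⟩ : P W) ∈ U →
      ∃ c : W, (⟨a, (c : WithTop W)⟩ : P W) ∈ U := by
    intro U hU a haU
    let D : Set (P W) := Set.range fun c : W => (⟨a, (c : WithTop W)⟩ : P W)
    have hDle : ∀ c c' : W, c ≤ c' → (⟨a, (c : WithTop W)⟩ : P W) ≤ ⟨a, (c' : WithTop W)⟩ :=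
      fun c c' h => Or.inl ⟨rfl, WithTop.coe_le_coe.mpr h⟩
    have hirr : IsIrreducible D := by
      refine ⟨⟨_, a, rfl⟩, ?_⟩
      rintro V V' hV hV' ⟨_, ⟨c, rfl⟩, hc⟩ ⟨_, ⟨c', rfl⟩, hc'⟩
      refine ⟨⟨a, ((max c c' : W) : WithTop W)⟩, ⟨max c c', rfl⟩, ?_, ?_⟩
      · exact hup V hV _ _ (hDle _ _ (le_max_left _ _)) hc
      · exact hup V' hV' _ _ (hDle _ _ (le_max_right _ _)) hc'
    obtain ⟨g, hg⟩ := hs.sober hirr.closure isClosed_closure
    have hg' : closure D = Set.Iic g := by rw [← hcl g]; exact hg.symm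
    have hub : ∀ c : W, (⟨a, (c : WithTop W)⟩ : P W) ≤ g := by
      intro c
      have : (⟨a, (c : WithTop W)⟩ : P W) ∈ closure D := subset_closure ⟨c, rfl⟩
      rw [hg'] at this; exact this
    have htop : (⟨a, ⊤⟩ : P W) ≤ g := by
      obtain ⟨d, hd⟩ := hW {g.col} (Set.countable_singleton _)
      have hd' := hd _ rfl
      by_cases hgc : a = g.col
      · left
        refine ⟨hgc, ?_⟩
        rw [top_le_iff]
        by_contra hne
        obtain ⟨y, hy⟩ := WithTop.ne_top_iff_exists.mp hne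
        obtain ⟨e, he⟩ := hW {y} (Set.countable_singleton _)
        have he' := he _ rfl
        rcases hub e with ⟨_, h⟩ | ⟨h, _⟩
        · rw [← hy] at h
          exact absurd (WithTop.coe_le_coe.mp h) (not_le.mpr he')
        · exact hne h
      · exfalso
        rcases hub d with ⟨h, _⟩ | ⟨_, h⟩
        · exact hgc h
        · exact absurd (WithTop.coe_le_coe.mp h) (not_le.mpr hd')
    have hmem : (⟨a, ⊤⟩ : P W) ∈ closure D := by rw [hg']; exact htop
    rw [mem_closure_iff] at hmem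
    obtain ⟨_, hz1, ⟨c, rfl⟩⟩ := hmem U hU haU
    exact ⟨c, hz1⟩
  -- the whole space is irreducible
  have hne : Nonempty W := inferInstance
  obtain ⟨w⟩ := hne
  have hirr : IsIrreducible (Set.univ : Set (P W)) := by
    refine ⟨⟨⟨w, ⊤⟩, trivial⟩, ?_⟩
    rintro V V' hV hV' ⟨x, _, hx⟩ ⟨x', _, hx'⟩
    have h1 : (⟨x.col, ⊤⟩ : P W) ∈ V := hup V hV x _ (Or.inl ⟨rfl, le_top⟩) hx
    have h2 : (⟨x'.col, ⊤⟩ : P W) ∈ V' := hup V' hV' x' _ (Or.inl ⟨rfl, le_top⟩) hx'
    obtain ⟨c, hc⟩ := hacc V hV _ h1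
    obtain ⟨c', hc'⟩ := hacc V' hV' _ h2
    refine ⟨⟨max c c', ⊤⟩, trivial, ?_, ?_⟩
    · exact hup V hV _ _ (Or.inr ⟨rfl, WithTop.coe_le_coe.mpr (le_max_left _ _)⟩) hc
    · exact hup V' hV' _ _ (Or.inr ⟨rfl, WithTop.coe_le_coe.mpr (le_max_right _ _)⟩) hc'
  obtain ⟨g, hg⟩ := hs.sober hirr isClosed_univ
  have hg' : (Set.univ : Set (P W)) = Set.Iic g := by rw [← hcl g]; exact hg.symm
  obtain ⟨a, b, hab⟩ := exists_pair_ne W
  have key : ∀ c : W, c = g.col := by
    intro c
    have : (⟨c, ⊤⟩ : P W) ∈ Set.Iic g := by rw [← hg']; trivial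
    rcases this with ⟨h, _⟩ | ⟨_, h⟩
    · exact h
    · exact absurd (top_le_iff.mp h) (WithTop.coe_ne_top)
  exact hab ((key a).trans (key b).symm)

/-! ### The index type -/

/-- A type of order type omega one. -/
abbrev Om : Type := (Cardinal.aleph 1).ord.ToType

theorem countable_Iio (a : Om) : (Set.Iio a).Countable := by
  have h : Cardinal.mk (Set.Iio a) < Cardinal.mk Om := Cardinal.mk_Iio_lt a (by simp)
  rw [Cardinal.mk_ord_toType] at h
  have h3 : Cardinal.mk (Set.Iio a) < Order.succ Cardinal.aleph0 :=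
    lt_of_lt_of_eq h Cardinal.succ_aleph0.symm
  exact Cardinal.le_aleph0_iff_set_countable.mp (Order.lt_succ_iff.mp h3)

theorem uncountable_Om : Uncountable Om := by
  rw [← Cardinal.aleph0_lt_mk_iff, Cardinal.mk_ord_toType]
  exact Cardinal.aleph0_lt_aleph_one

theorem exists_bound (S : Set Om) (hS : S.Countable) : ∃ d : Om, ∀ s ∈ S, s < d := by
  by_contra hcon
  push Not at hcon
  have hcov : (Set.univ : Set Om) ⊆ ⋃ s ∈ S, (insert s (Set.Iio s)) := by
    intro x _
    obtain ⟨s, hs, hxs⟩ := hcon x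
    refine Set.mem_biUnion hs ?_
    rcases hxs.lt_or_eq with h | h
    · exact Set.mem_insert_of_mem _ h
    · rw [h]; exact Set.mem_insert _ _
  have : (Set.univ : Set Om).Countable := by
    refine Set.Countable.mono hcov ?_
    exact Set.Countable.biUnion hS (fun s _ => (countable_Iio s).insert s)
  exact (uncountable_Om).not_countable (Set.countable_univ_iff.mp this)

theorem nontrivial_Om : Nontrivial Om := by
  have := uncountable_Om
  infer_instance

end Pool.Agent.Lib.MP_c1092b_gt
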